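import Pool.Agent.W607.Ev

/-!
Nodal curves on surfaces and exact Seshadri constants: definitions.

`S2 K = K[[x1, x2]]`, `co G p q` the coefficient of `x1 ^ p x2 ^ q`, `hh = x1 x2`.
-/

namespace Pool.Agent.TH595.NB

open Pool.Agent.W607

/-- power series in two variables -/
abbrev S2 (K : Type) [Field K] := MvPowerSeries (Fin 2) K

section
variable {K : Type} [Field K]

/-- the coefficient of `x1 ^ p x2 ^ q` -/
noncomputable def co (G : S2 K) (p q : ℕ) : K :=
  MvPowerSeries.coeff (Finsupp.single 0 p + Finsupp.single 1 q) G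

/-- `x1 x2` -/
noncomputable def hh : S2 K := MvPowerSeries.X 0 * MvPowerSeries.X 1

/-- `x1 ^ p x2 ^ q` is the only monomial of `G` of smallest weight, for the weights `P, Q` of the
two variables -/
def Lead (P Q : ℕ) (G : S2 K) (p q : ℕ) : Prop :=
  co G p q ≠ 0 ∧ ∀ p' q', co G p' q' ≠ 0 → (p', q') = (p, q) ∨ P * p + Q * q < P * p' + Q * q'

/-- the properties of the spaces of sections used below -/
structure Filt (r C : ℕ) (V : ℕ → Submodule K (S2 K)) : Prop where
  mono : Monotone V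
  fin : ∀ m, Module.finrank K (V m) = r * (m + 2).choose 2
  mul : ∀ i j, ∀ f ∈ V i, ∀ g ∈ V j, f * g ∈ V (i + j + C)
  hmul : ∀ m, ∀ f ∈ V m, hh * f ∈ V (m + 3)
  div : ∀ m, ∀ f ∈ V m, (MvPowerSeries.X 0 ∣ f ∨ MvPowerSeries.X 1 ∣ f) → f ≠ 0 →
    ∃ m', m' + 3 = m ∧ ∃ g ∈ V m', f = hh * g
  jets : ∀ m (c : ℕ → ℕ → K), ∃ f ∈ V m, ∀ p q, p + q ≤ m → co f p q = c p q

/-- the span of the products of powers of `x1 x2` and elements of `V m` -/
def MM (V : ℕ → Submodule K (S2 K)) (m : ℕ) : Submodule K (S2 K) :=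
  Submodule.span K {x | ∃ k : ℕ, ∃ y ∈ V m, x = hh ^ k * y}

end

/-- the embedding of `ℂ` in `K1 = ℂ(lam)` -/
noncomputable def io : ℂ →+* K1 := algebraMap ℂ K1

/-- the equation of the nodal cubic with node at `(a0, b0)` -/
noncomputable def hP (a0 b0 : ℂ) : AA K1 :=
  (MvPolynomial.C lam * (MvPolynomial.X 1 - MvPolynomial.C (io b0))) ^ 2 -
    (MvPolynomial.C lam * (MvPolynomial.X 0 - MvPolynomial.C (io a0))) ^ 2 -
    (MvPolynomial.C lam * (MvPolynomial.X 0 - MvPolynomial.C (io a0))) ^ 3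

/-- coordinates near the point over the node: `a, b, θ` as power series in `x1, x2` -/
structure Coord (Φ : BB ℂ) (a0 b0 θ0 : ℂ) (w a b θ : S2 K1) : Prop where
  cw : MvPowerSeries.constantCoeff w = 1
  hw : 2 * (w ^ 3 - w) = MvPowerSeries.X 1 - MvPowerSeries.X 0
  ha : MvPowerSeries.C lam * (a - MvPowerSeries.C (io a0)) = w ^ 2 - 1
  hb : 2 * (MvPowerSeries.C lam * (b - MvPowerSeries.C (io b0))) =
    MvPowerSeries.X 0 + MvPowerSeries.X 1
  ct : MvPowerSeries.constantCoeff θ = io θ0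
  root : evh ((MvPowerSeries.C : K1 →+* S2 K1).comp io) a b θ Φ = 0

/-- the values of the elements of degree at most `m` -/
noncomputable def Vm (r : ℕ) (a b θ : S2 K1) (m : ℕ) : Submodule K1 (S2 K1) :=
  Submodule.span K1 {x | ∃ G : BB K1, InV r m G ∧
    x = evh (MvPowerSeries.C : K1 →+* S2 K1) a b θ G}

/-- power series in the local coordinates with coefficients in `K[[s]]` -/
abbrev R2 (K : Type) [Field K] := MvPowerSeries (Fin 2) (PowerSeries K)

end Pool.Agent.TH595.NB
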